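import Pool.Agent.W425.SI.Defs

set_option autoImplicit false

namespace Pool.Agent.W655.SI

open MvPolynomial Pool.Agent.H628R4.TP Cardinal

/-- Over a countable subfield of the complex numbers there are finite algebraically independent
families of any length. -/
theorem exists_algInd (K : IntermediateField ℚ ℂ) (hK : #K ≤ ℵ₀) (ι : Type) [Finite ι] :
    ∃ x : ι → ℂ, AlgebraicIndependent K x := by
  classical
  obtain ⟨s, hs⟩ := exists_isTranscendenceBasis K ℂ
  have h1 := IsAlgClosed.cardinal_le_max_transcendence_basis' (R := K) (K' := ℂ)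
    (Subtype.val : s → ℂ) hs
  have hinf : Infinite s := by
    by_contra hfin
    rw [not_infinite_iff_finite] at hfin
    have h2 : #s ≤ ℵ₀ := (Cardinal.lt_aleph0_of_finite s).le
    have h3 : #ℂ ≤ ℵ₀ := h1.trans (max_le (max_le hK h2) le_rfl)
    rw [Cardinal.mk_complex] at h3
    exact absurd h3 (not_le.2 Cardinal.aleph0_lt_continuum)
  have : Fintype ι := Fintype.ofFinite ι
  obtain ⟨f⟩ : Nonempty (ι ↪ s) := by
    refine ⟨(Fintype.equivFin ι).toEmbedding.trans
      ((Fin.valEmbedding).trans (Infinite.natEmbedding s))⟩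
  exact ⟨fun i => (f i : ℂ), hs.1.comp f f.injective⟩

theorem countable_adjoin {r : ℕ} (a : Fin r → ℂ) :
    #(IntermediateField.adjoin ℚ (Set.range a)) ≤ ℵ₀ := by
  refine (IntermediateField.cardinalMk_adjoin_le ℚ (Set.range a)).trans ?_
  refine max_le (max_le ?_ ?_) le_rfl
  · exact Cardinal.mk_le_aleph0
  · exact (Set.finite_range a).lt_aleph0.le

/-- the exponent of `(c, t)` in the monomial `∏ (c t^{v_j})^{u_j}` -/
noncomputable def ex {r N : ℕ} (v : Fin r → Fin N → ℕ) (u : Fin r →₀ ℕ) : Option (Fin N) →₀ ℕ :=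
  Finsupp.equivFunOnFinite.symm (fun o => match o with
    | none => ∑ j, u j
    | some i => ∑ j, u j * v j i)

theorem mon_eq {R : Type} [CommSemiring R] {r N : ℕ} (v : Fin r → Fin N → ℕ) (u : Fin r →₀ ℕ)
    (x : Option (Fin N) → R) :
    (ex v u).prod (fun o k => x o ^ k) = ∏ j, (x none * ∏ i, x (some i) ^ v j i) ^ u j := by
  rw [Finsupp.prod_fintype _ _ (fun i => pow_zero _)]
  simp only [ex, Finsupp.equivFunOnFinite_symm_apply_apply, Fintype.prod_option, mul_pow,
    Finset.prod_mul_distrib, Finset.prod_pow_eq_pow_sum]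
  congr 1
  simp only [← Finset.prod_pow, ← pow_mul]
  rw [Finset.prod_comm]
  refine Finset.prod_congr rfl fun i _ => ?_
  rw [Finset.prod_pow_eq_pow_sum]
  congr 1
  exact Finset.sum_congr rfl fun j _ => mul_comm _ _

theorem taskI3 : Pool.Agent.W425.SI.TaskI3 := by
  classical
  intro r N v a hT
  obtain ⟨ha, hlin⟩ := hT
  set K := IntermediateField.adjoin ℚ (Set.range a) with hK
  obtain ⟨x, hx⟩ := exists_algInd K (countable_adjoin a) (Option (Fin N))
  have haK : ∀ j, a j ∈ K := fun j => IntermediateField.subset_adjoin _ _ (Set.mem_range_self j)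
  let b : Fin r → K := fun j => ⟨a j, haK j⟩
  refine ⟨x none, fun i => x (some i), hx.ne_zero none, fun i => hx.ne_zero (some i), ?_⟩
  rw [algebraicIndependent_iff]
  intro p hp
  by_contra hp0
  obtain ⟨u0, hu0⟩ := MvPolynomial.support_nonempty.2 hp0
  -- the polynomial in (c,t)
  let q : MvPolynomial (Option (Fin N)) K :=
    ∑ u ∈ p.support, monomial (ex v u) (algebraMap ℚ K (coeff u p) * ∏ j, b j ^ u j)
  have hq : aeval x q = 0 := by
    rw [← hp]
    conv_rhs => rw [p.as_sum]
    simp only [q, map_sum, aeval_monomial]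
    refine Finset.sum_congr rfl fun u _ => ?_
    rw [mon_eq, Finsupp.prod_fintype _ _ (fun i => pow_zero _)]
    simp only [map_mul, map_prod, map_pow, mul_pow, Finset.prod_mul_distrib]
    rw [← IsScalarTower.algebraMap_apply ℚ K ℂ]
    have : ∀ j, algebraMap K ℂ (b j) = a j := fun j => rfl
    simp only [this]
    ring
  have hq0 : q = 0 := (algebraicIndependent_iff.1 hx) q hq
  have hc := congrArg (coeff (ex v u0)) hq0
  simp only [q, coeff_sum, coeff_monomial, coeff_zero] at hc
  rw [← Finset.sum_filter] at hc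
  set S := p.support.filter (fun u => ex v u = ex v u0) with hS
  have hc' : ∑ u ∈ S, ((coeff u p : ℚ) : ℂ) * ∏ j, a j ^ u j = 0 := by
    have := congrArg (algebraMap K ℂ) hc
    simp only [map_sum, map_mul, map_prod, map_pow, map_zero] at this
    rw [← this]
    refine Finset.sum_congr rfl fun u _ => ?_
    rw [← IsScalarTower.algebraMap_apply ℚ K ℂ]
    rfl
  -- index
  have hrel : ∀ u : S, (∑ j, ((u.1 j : ℤ) - u0 j) = 0 ∧
      ∀ i, ∑ j, ((u.1 j : ℤ) - u0 j) * (v j i : ℤ) = 0) := by
    intro u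
    have hu := (Finset.mem_filter.1 u.2).2
    constructor
    · have := DFunLike.congr_fun hu none
      simp only [ex, Finsupp.equivFunOnFinite_symm_apply_apply] at this
      rw [Finset.sum_sub_distrib, sub_eq_zero]
      exact_mod_cast this
    · intro i
      have := DFunLike.congr_fun hu (some i)
      simp only [ex, Finsupp.equivFunOnFinite_symm_apply_apply] at this
      simp only [sub_mul]
      rw [Finset.sum_sub_distrib, sub_eq_zero]
      exact_mod_cast this
  let φ : S → {c : Fin r → ℤ // ∑ j, c j = 0 ∧ ∀ i, ∑ j, c j * (v j i : ℤ) = 0} :=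
    fun u => ⟨fun j => (u.1 j : ℤ) - u0 j, hrel u⟩
  have hφ : Function.Injective φ := by
    intro u w h
    apply Subtype.ext
    ext j
    have := congrFun (congrArg Subtype.val h) j
    simp only [φ] at this
    omega
  have hl := hlin.comp φ hφ
  rw [Fintype.linearIndependent_iff] at hl
  have h0 := hl (fun u => coeff u.1 p) ?_ ⟨u0, Finset.mem_filter.2 ⟨hu0, rfl⟩⟩
  · exact (mem_support_iff.1 hu0) h0
  · have hne : (∏ j, a j ^ u0 j) ≠ 0 := Finset.prod_ne_zero_iff.2 fun j _ => pow_ne_zero _ (ha j)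
    have key : (∑ u : S, coeff u.1 p • ((fun c : {c : Fin r → ℤ // ∑ j, c j = 0 ∧
        ∀ i, ∑ j, c j * (v j i : ℤ) = 0} => ∏ j, a j ^ (c.1 j)) ∘ φ) u) * (∏ j, a j ^ u0 j) = 0 := by
      rw [Finset.sum_mul, ← hc', ← Finset.sum_coe_sort S]
      refine Finset.sum_congr rfl fun u _ => ?_
      simp only [Function.comp, φ]
      rw [Algebra.smul_def, mul_assoc, ← Finset.prod_mul_distrib]
      congr 1
      refine Finset.prod_congr rfl fun j _ => ?_
      rw [zpow_sub₀ (ha j), zpow_natCast, zpow_natCast, div_mul_cancel₀ _ (pow_ne_zero _ (ha j))]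
    exact (mul_eq_zero.1 key).resolve_right hne

end Pool.Agent.W655.SI
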